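import Pool.Agent.Helper68.SG2.GoalsT
import Pool.Agent.Helper89.SGT.NQE

/-!
# Packet SH2-NQET: evenness of the norm polynomial, the `Ψ_h` of `G_m` indices do not occur
-/

set_option autoImplicit false

open MvPolynomial

namespace Pool.Agent.Helper99.SG2

open WeierstrassCurve Height
open Pool.Agent.Helper29.BL Pool.Agent.Helper92.Ru Pool.Agent.Helper42.SG
open Pool.Agent.Helper65.SG (GR gX gP sgn red)
open Pool.Agent.Helper68.SG2
open Pool.Agent.Helper89.SGT.NQEaux (coeff_diag sg ph ph_gX ph_gP ph_sgn)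

noncomputable section

lemma P0T_congr {K : Type} [Field K] {A : Type} [CommRing A] [Algebra K A] (T : ℕ → Bool)
    (W : ℕ → Affine K) (n M δ : ℕ) (e : ℕ → ℕ) (c : Idx n M δ e → K) (X Ψ Ψ' : ℕ → A)
    (h : ∀ j < 2 * n, T (j % 2) = false →
      Ψ j * Ψ (2 * n + j % 2) = Ψ' j * Ψ' (2 * n + j % 2)) :
    P0T T W n M δ e c X Ψ = P0T T W n M δ e c X Ψ' := by
  unfold P0T PT
  have h1 : ∀ (j : Fin (2 * n)) (i m : ℕ),
      blk T (mapW A W) n M e (fun _ => false) X Ψ j.val i m =
        blk T (mapW A W) n M e (fun _ => false) X Ψ' j.val i m := by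
    intro j i m
    unfold blk
    by_cases hT : T (j.val % 2) = true
    · rw [if_pos hT, if_pos hT]
      simp
    · rw [if_neg hT, if_neg hT]
      have h2 : lawV (mapW A W) n e (fun _ => false) X Ψ j.val =
          lawV (mapW A W) n e (fun _ => false) X Ψ' j.val := by
        unfold lawV
        rw [h j.val j.2 (by simpa using hT)]
      rw [h2]
  simp only [h1]

variable {K : Type} [Field K]

lemma ph_PeT (hN : NQNT) (T : ℕ → Bool) (W : ℕ → Affine K) (n M δ : ℕ) (e : ℕ → ℕ)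
    (c : Idx n M δ e → K) (h : Fin (2 * n + 2)) (ε : Fin (2 * n) → ℤˣ) :
    ph h (PeT T W n M δ e c ε) =
      PeT T W n M δ e c (ε * fun j => sg h.val j.val * sg h.val (2 * n + j.val % 2)) := by
  unfold PeT
  rw [hN K T W n M δ e c (GR K n) (GR K n) (ph h) (gX K n) (sgn n ε (gP K n)) (gX K n)
    (sgn n ε (fun j => (((sg h.val j : ℤˣ) : ℤ) : GR K n) * gP K n j))
    (fun j _ => ⟨ph_gX h j, ph_sgn h ε j⟩)]
  refine P0T_congr T W n M δ e c _ _ _ fun j hj _ => ?_
  have h2 : ¬ (2 * n + j % 2 < 2 * n) := by omega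
  unfold sgn
  rw [dif_pos hj, dif_pos hj, dif_neg h2, dif_neg h2, Pi.mul_apply]
  push_cast
  ring

lemma ph_QhT (hN : NQNT) (T : ℕ → Bool) (W : ℕ → Affine K) (n M δ : ℕ) (e : ℕ → ℕ)
    (c : Idx n M δ e → K) (h : Fin (2 * n + 2)) :
    ph h (QhT T W n M δ e c) = QhT T W n M δ e c := by
  unfold QhT
  rw [map_prod]
  simp only [ph_PeT hN T W n M δ e c h]
  exact Fintype.prod_equiv
    (Equiv.mulRight (fun j : Fin (2 * n) => sg h.val j.val * sg h.val (2 * n + j.val % 2)))
    _ _ (fun ε => rfl)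

/-- the substitution `Ψ_h ↦ 2 Ψ_h`. -/
def pd {n : ℕ} (h : Fin (2 * n + 2)) : GR K n →ₐ[K] GR K n :=
  aeval (fun i => C (if i = Sum.inr h then (2 : K) else 1) * X i)

lemma pd_gX {n : ℕ} (h : Fin (2 * n + 2)) (j : ℕ) : pd h (gX K n j) = gX K n j := by
  unfold gX pd
  split_ifs with H
  · rw [aeval_X, if_neg (by simp)]
    simp
  · simp

lemma pd_gP {n : ℕ} (h : Fin (2 * n + 2)) (j : ℕ) :
    pd h (gP K n j) = (if j = h.val then 2 else 1) * gP K n j := by
  unfold gP pd
  split_ifs with H h1 h1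
  · rw [aeval_X, if_pos]
    · congr 1
    · rw [Sum.inr.injEq, Fin.ext_iff]
      exact h1
  · rw [aeval_X, if_neg]
    · simp
    · rw [Sum.inr.injEq, Fin.ext_iff]
      exact h1
  · simp
  · simp

lemma pd_sgn {n : ℕ} (h : Fin (2 * n + 2)) (ε : Fin (2 * n) → ℤˣ) (j : ℕ) :
    pd h (sgn n ε (gP K n) j) =
      sgn n ε (fun j => (if j = h.val then 2 else 1) * gP K n j) j := by
  unfold sgn
  by_cases H : j < 2 * n
  · rw [dif_pos H, dif_pos H, map_mul, map_intCast, pd_gP]
  · rw [dif_neg H, dif_neg H, pd_gP]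

lemma pd_PeT (hN : NQNT) (T : ℕ → Bool) (W : ℕ → Affine K) (n M δ : ℕ) (e : ℕ → ℕ)
    (c : Idx n M δ e → K) (h : Fin (2 * n + 2)) (hT : T (h.val % 2) = true)
    (ε : Fin (2 * n) → ℤˣ) : pd h (PeT T W n M δ e c ε) = PeT T W n M δ e c ε := by
  unfold PeT
  rw [hN K T W n M δ e c (GR K n) (GR K n) (pd h) (gX K n) (sgn n ε (gP K n)) (gX K n)
    (sgn n ε (fun j => (if j = h.val then 2 else 1) * gP K n j))
    (fun j _ => ⟨pd_gX h j, pd_sgn h ε j⟩)]
  refine P0T_congr T W n M δ e c _ _ _ fun j hj hTj => ?_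
  have h2 : ¬ (2 * n + j % 2 < 2 * n) := by omega
  have h3 : j ≠ h.val := by
    rintro rfl
    rw [hT] at hTj
    exact absurd hTj (by simp)
  have h4 : 2 * n + j % 2 ≠ h.val := by
    intro h5
    have h6 : h.val % 2 = j % 2 := by omega
    rw [h6, hTj] at hT
    exact absurd hT (by simp)
  unfold sgn
  rw [dif_pos hj, dif_pos hj, dif_neg h2, dif_neg h2]
  simp only [if_neg h3, if_neg h4, one_mul]

lemma pd_QhT (hN : NQNT) (T : ℕ → Bool) (W : ℕ → Affine K) (n M δ : ℕ) (e : ℕ → ℕ)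
    (c : Idx n M δ e → K) (h : Fin (2 * n + 2)) (hT : T (h.val % 2) = true) :
    pd h (QhT T W n M δ e c) = QhT T W n M δ e c := by
  unfold QhT
  rw [map_prod]
  exact Finset.prod_congr rfl fun ε _ => pd_PeT hN T W n M δ e c h hT ε

theorem t_NQET (hN : Pool.Agent.Helper68.SG2.NQNT) : Pool.Agent.Helper68.SG2.NQET := by
  intro K _ _ T W n M δ e c m hm h
  rw [mem_support_iff] at hm
  constructor
  · by_contra hodd
    rw [Nat.not_even_iff_odd] at hodd
    apply hm
    have h1 := congrArg (coeff m) (ph_QhT hN T W n M δ e c h)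
    unfold ph at h1
    rw [coeff_diag] at h1
    have h2 : (∏ i : Fin (2 * n + 2) ⊕ Fin (2 * n + 2),
        (if i = Sum.inr h then (-1 : K) else 1) ^ m i) = -1 := by
      rw [Finset.prod_eq_single (Sum.inr h)]
      · rw [if_pos rfl, hodd.neg_one_pow]
      · intro i _ hi
        rw [if_neg hi, one_pow]
      · intro hh
        exact absurd (Finset.mem_univ _) hh
    rw [h2] at h1
    have h3 : (2 : K) * coeff m (QhT T W n M δ e c) = 0 := by
      linear_combination -h1
    rcases mul_eq_zero.1 h3 with h4 | h4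
    · exact absurd h4 two_ne_zero
    · exact h4
  · intro hT
    by_contra hne
    apply hm
    have h1 := congrArg (coeff m) (pd_QhT hN T W n M δ e c h hT)
    unfold pd at h1
    rw [coeff_diag] at h1
    have h2 : (∏ i : Fin (2 * n + 2) ⊕ Fin (2 * n + 2),
        (if i = Sum.inr h then (2 : K) else 1) ^ m i) = 2 ^ m (Sum.inr h) := by
      rw [Finset.prod_eq_single (Sum.inr h)]
      · rw [if_pos rfl]
      · intro i _ hi
        rw [if_neg hi, one_pow]
      · intro hh
        exact absurd (Finset.mem_univ _) hh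
    rw [h2] at h1
    have h3 : ((2 : K) ^ m (Sum.inr h) - 1) * coeff m (QhT T W n M δ e c) = 0 := by
      linear_combination h1
    rcases mul_eq_zero.1 h3 with h4 | h4
    · exfalso
      have h5 : ((2 ^ m (Sum.inr h) : ℕ) : K) = ((1 : ℕ) : K) := by
        push_cast
        exact sub_eq_zero.1 h4
      have h6 : 2 ^ m (Sum.inr h) = 1 := Nat.cast_injective h5
      have h7 : 1 < 2 ^ m (Sum.inr h) := Nat.one_lt_two_pow hne
      omega
    · exact h4

end

end Pool.Agent.Helper99.SG2
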